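import Pool.Agent.N436.DF.Stm

/-!
# Project DF (helper436), part 19: translation to critical graphs
-/

set_option autoImplicit false

namespace Pool.Agent.N264.DF

open Finset Pool.Agent.N436.DF

/-- the parameters -/
def par (d₁ d₂ : ℕ) (h1 : 2 ≤ d₁) (h2 : 3 * d₁ + 2 ≤ 2 * d₂) : Par where
  j := d₁
  k := d₂
  a := d₂ + 2
  b := d₁ + 2
  d := d₂ - d₁
  D := (d₁ + 2) * (d₂ + 1)
  hj := by omega
  hb := by omega
  hd := by omega
  hab := by ring
  hD2 := rfl
  hD1 := by ring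
  hDa := by nlinarith
  hjk := by omega

lemma par_rng (d₁ d₂ : ℕ) (h1 : 2 ≤ d₁) (h2 : 3 * d₁ + 2 ≤ 2 * d₂) : Rng (par d₁ d₂ h1 h2) where
  hsoft := by
    change 2 * (((d₂ : ℤ) + 2) + (d₁ + 2)) ≤ ((d₁ : ℤ) + 2) * (d₂ + 1)
    have e1 : (2 : ℤ) ≤ d₁ := by exact_mod_cast h1
    have e2 : 3 * (d₁ : ℤ) + 2 ≤ 2 * d₂ := by exact_mod_cast h2
    nlinarith
  ha3 := by
    change ((d₂ : ℤ) + 2) ≤ 3 * (d₂ - d₁)
    omega
  hb2 := by
    change ((d₁ : ℤ) + 2) ≤ 2 * (d₂ - d₁)
    omega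

open Classical in
/-- the hub system of a graph -/
noncomputable def hub (d₁ d₂ : ℕ) {V : Type} (G : SimpleGraph V) : Hub V where
  c i _ := if i then d₁ else d₂
  r u v := if G.Adj u v then 1 else 0
  m _ _ := 0

section

variable {d₁ d₂ : ℕ} {V : Type} (G : SimpleGraph V)

open Classical in
lemma hub_ok (h1 : 2 ≤ d₁) (h2 : 3 * d₁ + 2 ≤ 2 * d₂) :
    Ok (par d₁ d₂ h1 h2) (hub d₁ d₂ G) where
  c_ge i v := by
    change (-1 : ℤ) ≤ if i then (d₁ : ℤ) else d₂
    split_ifs <;> omega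
  c1_le v := le_refl (d₁ : ℤ)
  c2_le v := le_refl (d₂ : ℤ)
  r01 u v := by
    change (if G.Adj u v then (1 : ℤ) else 0) = 0 ∨ (if G.Adj u v then (1 : ℤ) else 0) = 1
    split_ifs <;> simp
  rsymm u v := by
    change (if G.Adj u v then (1 : ℤ) else 0) = if G.Adj v u then (1 : ℤ) else 0
    simp only [G.adj_comm u v]
  r0 v := by
    change (if G.Adj v v then (1 : ℤ) else 0) = 0
    simp
  m_nn u v := le_refl 0
  msymm u v := rfl
  m0 v := rfl

open Classical in
lemma load_eq (X : Finset V) (f : V → Bool) (v : V) :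
    load (hub d₁ d₂ G) X f (fun _ _ => 0) v = ((X.filter fun u => G.Adj v u ∧ f v = f u).card : ℤ) := by
  rw [load, Finset.card_filter]
  push_cast
  refine Finset.sum_congr rfl fun u _ => ?_
  change (if f v = f u then (if G.Adj v u then (1 : ℤ) else 0) else 0) = _
  by_cases h1 : f v = f u <;> by_cases h2 : G.Adj v u <;> simp [h1, h2]

open Classical in
lemma load_ge (X : Finset V) (f : V → Bool) (p : V → V → ℤ) (hp : ∀ u v, 0 ≤ p u v) (v : V) :
    ((X.filter fun u => G.Adj v u ∧ f v = f u).card : ℤ) ≤ load (hub d₁ d₂ G) X f p v := by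
  rw [← load_eq (d₁ := d₁) (d₂ := d₂)]
  refine Finset.sum_le_sum fun u _ => ?_
  split_ifs
  · exact le_refl _
  · exact hp v u

lemma colourable [Fintype V] [DecidableEq V] (h : Col (hub d₁ d₂ G) (univ : Finset V)) :
    Colourable d₁ d₂ G := by
  classical
  obtain ⟨f, p, hf⟩ := h
  have key : ∀ v, ((univ.filter fun u => G.Adj v u ∧ f v = f u).card : ℤ) ≤
      if f v then (d₁ : ℤ) else d₂ := by
    intro v
    have h1 := load_ge (d₁ := d₁) (d₂ := d₂) G univ f p hf.nn v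
    have h2 := hf.cap v (mem_univ v)
    have h3 : load (hub d₁ d₂ G) univ f p v ≤ if f v then (d₁ : ℤ) else d₂ := by
      exact h2.trans (le_of_eq rfl)
    exact h1.trans h3
  refine ⟨{v | f v = true}, fun v hv => ?_, fun v hv => ?_⟩
  · have h1 := key v
    have hv' : f v = true := hv
    rw [hv', if_pos rfl] at h1
    have h2 : G.neighborSet v ∩ {v | f v = true} =
        ((univ.filter fun u => G.Adj v u ∧ true = f u : Finset V) : Set V) := by
      ext u
      simp only [Set.mem_inter_iff, SimpleGraph.mem_neighborSet, Set.mem_ofPred_eq, coe_filter,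
        mem_univ, true_and, eq_comm]
    rw [h2, Set.ncard_coe_finset]
    exact_mod_cast h1
  · have h1 := key v
    have hv' : f v = false := by simpa using hv
    rw [hv', if_neg (by simp)] at h1
    have h2 : G.neighborSet v ∩ {v | f v = true}ᶜ =
        ((univ.filter fun u => G.Adj v u ∧ false = f u : Finset V) : Set V) := by
      ext u
      simp only [Set.mem_inter_iff, SimpleGraph.mem_neighborSet, Set.mem_compl_iff,
        Set.mem_ofPred_eq, coe_filter, mem_univ, true_and, Bool.not_eq_true]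
      constructor
      · rintro ⟨a, b⟩; exact ⟨a, b.symm⟩
      · rintro ⟨a, b⟩; exact ⟨a, b.symm⟩
    rw [h2, Set.ncard_coe_finset]
    exact_mod_cast h1

/-- a colouring of a proper induced subgraph -/
lemma colBy_induce [DecidableEq V] (hc : Critical d₁ d₂ G) (X : Finset V)
    (hX : ∃ v, v ∉ X) : ∃ f, ColBy (hub d₁ d₂ G) X f (fun _ _ => 0) := by
  classical
  obtain ⟨v₀, hv₀⟩ := hX
  let G' : G.Subgraph := (⊤ : G.Subgraph).induce (X : Set V)
  have hne : G' ≠ ⊤ := by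
    intro h
    have h1 : v₀ ∈ G'.verts := by rw [h]; exact Set.mem_univ _
    exact hv₀ h1
  have hverts : ∀ v, v ∈ G'.verts ↔ v ∈ X := fun v => by
    change v ∈ (X : Set V) ↔ v ∈ X
    exact Finset.mem_coe
  have hadj : ∀ u v : G'.verts, G'.coe.Adj u v ↔ G.Adj u v := by
    intro u v
    simp only [SimpleGraph.Subgraph.coe_adj]
    change (u : V) ∈ (X : Set V) ∧ (v : V) ∈ (X : Set V) ∧ (⊤ : G.Subgraph).Adj u v ↔ G.Adj u v
    simp only [SimpleGraph.Subgraph.top_adj]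
    exact ⟨fun h => h.2.2, fun h => ⟨u.2, v.2, h⟩⟩
  obtain ⟨A, hA1, hA2⟩ := hc.sub_col G' hne
  let f : V → Bool := fun v => decide (∃ h : v ∈ G'.verts, (⟨v, h⟩ : G'.verts) ∈ A)
  have hfA : ∀ v : G'.verts, f v = true ↔ v ∈ A := by
    intro v
    simp only [f, decide_eq_true_eq]
    exact ⟨fun ⟨_, h⟩ => h, fun h => ⟨v.2, h⟩⟩
  refine ⟨f, fun _ _ => le_refl 0, fun _ _ _ _ _ => le_refl 0, fun v hv => ?_⟩
  rw [load_eq]
  have hvv : v ∈ G'.verts := (hverts v).2 hv
  by_cases hfv : f v = true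
  · have h1 := hA1 ⟨v, hvv⟩ ((hfA ⟨v, hvv⟩).1 hfv)
    rw [← Set.ncard_image_of_injective _ Subtype.val_injective] at h1
    have h2 : Subtype.val '' (G'.coe.neighborSet ⟨v, hvv⟩ ∩ A) =
        ((X.filter fun u => G.Adj v u ∧ f v = f u : Finset V) : Set V) := by
      ext u
      simp only [Set.mem_image, Set.mem_inter_iff, SimpleGraph.mem_neighborSet, coe_filter,
        Set.mem_ofPred_eq]
      constructor
      · rintro ⟨w, ⟨hw1, hw2⟩, rfl⟩
        exact ⟨(hverts _).1 w.2, (hadj _ _).1 hw1, by rw [hfv, (hfA w).2 hw2]⟩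
      · rintro ⟨hu, hvu, hfu⟩
        exact ⟨⟨u, (hverts u).2 hu⟩, ⟨(hadj _ _).2 hvu, (hfA ⟨u, (hverts u).2 hu⟩).1 (by
          rw [← hfu, hfv])⟩, rfl⟩
    rw [h2, Set.ncard_coe_finset] at h1
    have h3 : (hub d₁ d₂ G).c (f v) v = d₁ := by
      change (if f v then (d₁ : ℤ) else d₂) = d₁
      rw [hfv, if_pos rfl]
    rw [h3]
    exact_mod_cast h1
  · have hfv' : f v = false := by simpa using hfv
    have h1 := hA2 ⟨v, hvv⟩ (fun h => hfv ((hfA ⟨v, hvv⟩).2 h))
    rw [← Set.ncard_image_of_injective _ Subtype.val_injective] at h1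
    have h2 : Subtype.val '' (G'.coe.neighborSet ⟨v, hvv⟩ ∩ Aᶜ) =
        ((X.filter fun u => G.Adj v u ∧ f v = f u : Finset V) : Set V) := by
      ext u
      simp only [Set.mem_image, Set.mem_inter_iff, SimpleGraph.mem_neighborSet, coe_filter,
        Set.mem_ofPred_eq, Set.mem_compl_iff]
      constructor
      · rintro ⟨w, ⟨hw1, hw2⟩, rfl⟩
        refine ⟨(hverts _).1 w.2, (hadj _ _).1 hw1, ?_⟩
        rw [hfv']
        by_contra hcon
        exact hw2 ((hfA w).1 (by simpa using Ne.symm hcon))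
      · rintro ⟨hu, hvu, hfu⟩
        refine ⟨⟨u, (hverts u).2 hu⟩, ⟨(hadj _ _).2 hvu, fun h => ?_⟩, rfl⟩
        rw [(hfA ⟨u, (hverts u).2 hu⟩).2 h, hfv'] at hfu
        exact absurd hfu (by simp)
    rw [h2, Set.ncard_coe_finset] at h1
    have h3 : (hub d₁ d₂ G).c (f v) v = d₂ := by
      change (if f v then (d₁ : ℤ) else d₂) = d₂
      rw [hfv', if_neg (by simp)]
    rw [h3]
    exact_mod_cast h1

lemma rho_univ [Fintype V] [DecidableEq V] (h1 : 2 ≤ d₁) (h2 : 3 * d₁ + 2 ≤ 2 * d₂) :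
    rho (par d₁ d₂ h1 h2) (hub d₁ d₂ G) (univ : Finset V) =
      2 * (Fintype.card V : ℤ) * (2 * ((d₁ + 2) * (d₂ + 1)) - (d₂ + 2)) -
        2 * ((d₁ + 2) * (d₂ + 1)) * (G.edgeSet.ncard : ℤ) := by
  classical
  have e1 : ∀ v, wt (par d₁ d₂ h1 h2) (hub d₁ d₂ G) v =
      2 * (((d₁ : ℤ) + 2) * (d₂ + 1)) - (d₂ + 2) := by
    intro v
    change ((d₂ : ℤ) + 2) * ((d₁ : ℤ) + 1) + ((d₁ : ℤ) + 2) * d₂ = _
    ring
  have e2 : ∀ u v, ew (par d₁ d₂ h1 h2) (hub d₁ d₂ G) u v =
      (((d₁ : ℤ) + 2) * (d₂ + 1)) * (if G.Adj u v then 1 else 0) := by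
    intro u v
    change (((d₁ : ℤ) + 2) * (d₂ + 1)) * (if G.Adj u v then 1 else 0) + ((d₂ : ℤ) + 2) * 0 = _
    ring
  have e3 : ∑ u : V, ∑ v : V, (if G.Adj u v then (1 : ℤ) else 0) = 2 * (G.edgeSet.ncard : ℤ) := by
    have h3 : ∀ u : V, ∑ v : V, (if G.Adj u v then (1 : ℤ) else 0) = G.degree u := by
      intro u
      rw [← Finset.natCast_card_filter, ← SimpleGraph.card_neighborFinset_eq_degree]
      congr 2
      ext v
      simp
    simp only [h3]
    rw [← Nat.cast_sum, G.sum_degrees_eq_twice_card_edges, ← SimpleGraph.coe_edgeFinset,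
      Set.ncard_coe_finset]
    push_cast
    rfl
  rw [rho]
  simp only [e1, e2, ← Finset.mul_sum, e3, Finset.sum_const, card_univ, nsmul_eq_mul]
  ring

end

theorem graph (hkc : S_killCol) (hkr : S_killRho) : S_graph := by
  intro hmain d₁ d₂ h1 h2 V _ G hcrit
  classical
  by_contra hcon
  push Not at hcon
  set P := par d₁ d₂ h1 h2 with hP
  have hrng : Rng P := par_rng d₁ d₂ h1 h2
  set H := hub d₁ d₂ G with hH
  have hok : Ok P H := hub_ok G h1 h2
  have hb0 : 0 < P.b := by have := P.hb; omega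
  have hnotcol : ¬ Col H univ := fun h => hcrit.not_col (colourable G h)
  -- the potential of the whole graph
  have hrho : -(2 * P.b) < rho P H univ := by
    rw [hP, hH, rho_univ G h1 h2]
    change -(2 * ((d₁ : ℤ) + 2)) < _
    have hD : (0 : ℚ) < ((d₁ : ℚ) + 2) * ((d₂ : ℚ) + 1) := by positivity
    have h3 := mul_lt_mul_of_pos_left hcon (mul_pos (by norm_num : (0 : ℚ) < 2) hD)
    have h4 : 2 * (((d₁ : ℚ) + 2) * ((d₂ : ℚ) + 1)) *
        ((2 - ((d₂ : ℚ) + 2) / (((d₁ : ℚ) + 2) * ((d₂ : ℚ) + 1))) * (Fintype.card V : ℚ)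
          + 1 / ((d₂ : ℚ) + 1)) = 2 * (Fintype.card V : ℚ) *
            (2 * (((d₁ : ℚ) + 2) * ((d₂ : ℚ) + 1)) - ((d₂ : ℚ) + 2)) + 2 * ((d₁ : ℚ) + 2) := by
      field_simp
    rw [h4] at h3
    have h5 : (-(2 * ((d₁ : ℚ) + 2))) < 2 * (Fintype.card V : ℚ) *
        (2 * (((d₁ : ℚ) + 2) * ((d₂ : ℚ) + 1)) - ((d₂ : ℚ) + 2)) -
        2 * (((d₁ : ℚ) + 2) * ((d₂ : ℚ) + 1)) * (G.edgeSet.ncard : ℚ) := by linarith
    exact_mod_cast h5
  -- `V` is nonempty
  have hV : Nonempty V := by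
    by_contra hV
    rw [not_nonempty_iff] at hV
    exact hcrit.not_col ⟨∅, fun v => (hV.false v).elim, fun v => (hV.false v).elim⟩
  obtain ⟨v₀⟩ := hV
  obtain ⟨X, hX, hmin⟩ := Finset.exists_min_image
    ((univ : Finset (Finset V)).filter fun X => X.Nonempty) (rho P H)
    ⟨univ, by simp only [mem_filter, mem_univ, true_and]; exact ⟨v₀, mem_univ _⟩⟩
  rw [mem_filter] at hX
  have hmin' : ∀ Y : Finset V, Y.Nonempty → rho P H X ≤ rho P H Y := fun Y hY =>
    hmin Y (by simp only [mem_filter, mem_univ, true_and]; exact hY)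
  by_cases hXb : -(2 * P.b) < rho P H X
  · exact hnotcol (hmain V P H univ hrng hok fun Y _ hY => hXb.trans_le (hmin' Y hY))
  · push Not at hXb
    have hXu : X ≠ univ := by
      rintro rfl
      exact absurd hrho (not_lt.2 hXb)
    have hXv : ∃ v, v ∉ X := by
      by_contra hall
      push Not at hall
      exact hXu (Finset.eq_univ_iff_forall.2 hall)
    obtain ⟨f, hf⟩ := colBy_induce G hcrit X hXv
    obtain ⟨hk1, hk2, hk3, -⟩ := hkr V P H X f hok
    have hyp : Hyp P (kill H X f) (univ \ X) := by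
      intro Y hY hYn
      have hdis : Disjoint Y X := by
        rw [Finset.disjoint_left]
        intro v hv
        exact (mem_sdiff.1 (hY hv)).2
      rw [hk2 Y hdis]
      have h6 := hmin' (Y ∪ X) (hYn.mono subset_union_left)
      have h7 : 0 ≤ ∑ v ∈ Y, sav P H X f v := Finset.sum_nonneg fun v _ => (hk3 v).2.2.2.2.2
      linarith
    obtain ⟨f', p', hf', -⟩ := hkc V P H univ X f _ hok (subset_univ X) hf
      (hmain V P _ _ hrng hk1 hyp)
    exact hnotcol ⟨f', p', hf'⟩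

end Pool.Agent.N264.DF
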